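import Mathlib
import Pool.Agent.L5helper94.FS.Final2
import Pool.Agent.L5helper94.FS.Area
import Pool.Agent.L5helper94.FS.Statement

/-!
# Donaldson's four-six question

There is a closed symplectic four-manifold `(X, ω)` such that the products of `(X, ω)` and of
`(X, -ω)` with the two-sphere are not symplectically deformation equivalent. The manifold `X` is
the product of a circle with the mapping torus of a hyperbolic linear automorphism of the
two-torus.
-/

open scoped Manifold ContDiff
open Pool.Agent.L5helper94.FS

namespace Pool.Agent.Results.MP_be134e_gt.SignObstruction

/-- the four-manifold of the example -/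
noncomputable def exampleFour : SympFour where
  X := X4
  form := omX
  symplectic := isSymplectic_omX

/-- There is a closed symplectic four-manifold `(X, ω)` such that for all area forms `σ`, `τ` on
the sphere the symplectic manifolds `(X × S², ω ⊕ σ)` and `(X × S², (-ω) ⊕ τ)` are not
symplectically deformation equivalent. -/
theorem result : Nonempty AreaForm ∧ ∃ A : SympFour, ∀ σ τ : AreaForm,
    IsSymplectic (prodForm A.form σ.form) ∧
      ¬ ProductsEquivalent A.form σ.form A.neg.form τ.form :=
  ⟨⟨⟨area, isSymplectic_area⟩⟩, exampleFour, fun σ τ =>
    ⟨isSymplectic_prodForm isSymplectic_omX σ.symplectic,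
      not_deformationEquivalent τ.symplectic⟩⟩

end Pool.Agent.Results.MP_be134e_gt.SignObstruction
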